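import Pool.Agent.Helper58.OL.Def
import Pool.Agent.Helper97.DP.Main

/-!
# Part PA of the swarm OLB: the orthogonal of the sections vanishing at infinity
-/

set_option autoImplicit false
set_option linter.unusedSectionVars false

open Polynomial Finset DirectSum

namespace Pool.Agent.Helper38.OLB

open Pool.Agent.Helper766_CF Pool.Agent.Helper766_CG Pool.Agent.Helper766_CH
open Pool.Agent.Helper58.CS Pool.Agent.Helper58.OP Pool.Agent.Helper58.SH Pool.Agent.Helper58.BG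
open Pool.Agent.Helper58.LC Pool.Agent.Helper58.NS Pool.Agent.Helper58.DP Pool.Agent.Helper58.OL
open Pool.Agent.Helper97.DP

/-- Linear algebra: a Lagrangian type statement. -/
theorem la {k H : Type} [Field k] [AddCommGroup H] [Module k H] [FiniteDimensional k H]
    (K : Submodule k H) (J : K →ₗ[k] H) (a : H →ₗ[k] H →ₗ[k] k)
    (hdim : Module.finrank k H = 3 * Module.finrank k K)
    (h1 : ∀ W V : K, a V W = 0) (h2 : ∀ W V : K, a (J V) W = 0)
    (h3 : ∀ W : K, (∀ V, a V W = 0) → W = 0)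
    (h4 : ∀ W W' : K, (W : H) + J W' = 0 → W = 0 ∧ W' = 0)
    (V : H) (hV : ∀ W : K, a V W = 0) : ∃ W W' : K, V = W + J W' := by
  classical
  -- the form restricted to `K`
  let φ : H →ₗ[k] Module.Dual k K := (LinearMap.lcomp k k K.subtype).comp a
  have hφ : ∀ V W, φ V W = a V W := fun V W => rfl
  have hsurj : LinearMap.range φ = ⊤ := by
    by_contra hne
    obtain ⟨F, hF0, hF⟩ := Submodule.exists_le_ker_of_lt_top _ (lt_top_iff_ne_top.2 hne)
    obtain ⟨W, hW⟩ := (Module.evalEquiv k K).surjective F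
    apply hF0
    have hW0 : W = 0 := h3 W fun V => by
      have h5 : φ V ∈ LinearMap.ker F := hF ⟨V, rfl⟩
      rw [LinearMap.mem_ker, ← hW] at h5
      exact h5
    rw [← hW, hW0, map_zero]
  have hker : Module.finrank k (LinearMap.ker φ) = 2 * Module.finrank k K := by
    have h5 := LinearMap.finrank_range_add_finrank_ker φ
    rw [hsurj, finrank_top, Subspace.dual_finrank_eq, hdim] at h5
    omega
  -- the sum
  let ψ : (K × K) →ₗ[k] H := K.subtype.coprod J
  have hψ : ∀ p : K × K, ψ p = (p.1 : H) + J p.2 := fun p => LinearMap.coprod_apply _ _ _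
  have hinj : Function.Injective ψ := by
    rw [← LinearMap.ker_eq_bot, LinearMap.ker_eq_bot']
    intro p hp
    rw [hψ] at hp
    obtain ⟨e1, e2⟩ := h4 _ _ hp
    exact Prod.ext e1 e2
  have hle : LinearMap.range ψ ≤ LinearMap.ker φ := by
    rintro _ ⟨p, rfl⟩
    rw [LinearMap.mem_ker]
    ext W
    rw [hφ, hψ, map_add, LinearMap.add_apply, h1, h2]
    simp
  have heq : LinearMap.range ψ = LinearMap.ker φ := by
    apply Submodule.eq_of_le_of_finrank_eq hle
    rw [hker, LinearMap.finrank_range_of_inj hinj, Module.finrank_prod]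
    ring
  have hVk : V ∈ LinearMap.ker φ := by
    rw [LinearMap.mem_ker]
    ext W
    exact hV W
  rw [← heq] at hVk
  obtain ⟨p, hp⟩ := hVk
  exact ⟨p.1, p.2, by rw [← hp, hψ]⟩

variable {R : Type} [CommRing R] [Algebra ℂ R] {𝒜 : ℕ → Submodule ℂ R} [GradedAlgebra 𝒜]
  {br : R →ₗ[ℂ] R →ₗ[ℂ] R} {k : Type} [Field k] [Algebra ℂ k] [IsAlgClosed k]

lemma sec1_of_K1 {f : R →ₐ[ℂ] k[X]} (W : K1 𝒜 f) : Sec1 𝒜 f ((W : HS 𝒜 f) : R →ₗ[ℂ] k[X]) := by
  refine ⟨(W : HS 𝒜 f).2.der, fun d a ha => ?_⟩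
  have h1 := (W : HS 𝒜 f).2.deg (d + 1) a ha
  have h2 : (((W : HS 𝒜 f) : R →ₗ[ℂ] k[X]) a).coeff (d + 1) = 0 := W.2 (d + 1) a ha
  rw [natDegree_le_iff_coeff_eq_zero] at h1 ⊢
  intro N hN
  rcases Nat.lt_or_ge (d + 1) N with h3 | h3
  · exact h1 N h3
  · have : N = d + 1 := by omega
    rw [this]
    exact h2

/-- PA. -/
theorem perp_span' (C : Core 𝒜 br) {f g : R →ₐ[ℂ] k[X]} (h : FL 𝒜 k f g) {δ : R →ₗ[ℂ] k}
    (hδ : ∀ a b, δ (a * b) = (f a).coeff 0 * δ b + (f b).coeff 0 * δ a)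
    (hperp : ∀ s, Sec1 𝒜 f s →
      Perp br (fun r => (f r).coeff 0) (fun r => (s r).coeff 0) (fun r => δ r)) :
    ∃ s, Sec1 𝒜 f s ∧ ∀ r, δ r = (s r).coeff 0 := by
  classical
  have hfin : Module.Finite k (HS 𝒜 f) := finite_HS C.fg f
  have hrev' : ∀ d, ∀ a ∈ 𝒜 d, ∀ i j, i + j = d → (g a).coeff i = (f a).coeff j :=
    fun d a ha i j hij => (h.rev d a ha j i (by omega)).symm
  -- the other chart
  let G : HS 𝒜 f → HS 𝒜 g := fun V => ⟨rv 𝒜 V, sec_rv h.cur h.cur' h.rev V.2⟩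
  have hdeg : ∀ V V' : HS 𝒜 f, (Pm C h.cur V V').natDegree ≤ 1 ∧
      (Pm C h.cur' (G V) (G V')).eval 0 = (Pm C h.cur V V').coeff 1 := fun V V' =>
    poly_rev fun s hs => Pm_rev C h V V' (G V) (G V') rfl rfl hs
  have hev : ∀ (V V' : HS 𝒜 f) (lam : k), (Pm C h.cur V V').eval lam =
      (Pm C h.cur V V').coeff 0 + lam * (Pm C h.cur V V').coeff 1 := by
    intro V V' lam
    have h1 := Polynomial.eq_X_add_C_of_natDegree_le_one (hdeg V V').1
    conv_lhs => rw [h1]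
    simp
    ring
  have hK : ∀ (W : K1 𝒜 f) (V : HS 𝒜 f), (Pm C h.cur W V).coeff 1 = 0 := by
    intro W V
    rw [← (hdeg W V).2, Pm_anti, eval_neg, Pm_eval]
    have h1 : ((vl (0 : k) ((G (W : HS 𝒜 f) : HS 𝒜 g) : R →ₗ[ℂ] k[X]) : R →ₗ[ℂ] k) : R → k) =
        fun _ => 0 := funext fun r => vl_zero_of_K1 (W : HS 𝒜 f) W.2 r
    rw [h1, om_zero, neg_zero]
  have hJm : ∀ (W : K1 𝒜 f) (V : HS 𝒜 f), Pm C h.cur V (J f W) = X * Pm C h.cur V W :=
    fun W V => om_mul (Lv C h.cur V) X _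
  -- a section of `K1` orthogonal at `0` to everything is zero
  have hzero : ∀ W : K1 𝒜 f, (∀ V : HS 𝒜 f, (Pm C h.cur W V).coeff 0 = 0) → W = 0 := by
    intro W hW
    apply Subtype.ext
    apply Subtype.ext
    ext1 r
    change ((W : HS 𝒜 f) : R →ₗ[ℂ] k[X]) r = 0
    apply Polynomial.funext
    intro lam
    rw [eval_zero]
    refine ndg C h.cur h.gg (W : HS 𝒜 f) lam (fun V => ?_) r
    rw [hev, hW, hK, mul_zero, add_zero]
  -- the section with value `δ`
  obtain ⟨V, hV, hVδ⟩ := h.gg 0 δ (by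
    intro a b
    rw [hδ, coeff_zero_eq_eval_zero, coeff_zero_eq_eval_zero])
  -- orthogonality
  have horth : ∀ W : K1 𝒜 f, (Pm C h.cur ⟨V, hV⟩ W).coeff 0 = 0 := by
    intro W
    have h0 : ∀ r, δ r = ((evL 0 (Lv C h.cur (⟨V, hV⟩ : HS 𝒜 f))).map
        fun q => q.2 * (f (br q.1 r)).coeff 0).sum := by
      intro r
      have h2 := vl_hv C h.cur (⟨V, hV⟩ : HS 𝒜 f) 0 r
      rw [vl_apply] at h2
      refine (hVδ r).trans (h2.trans ?_)
      simp only [hv]
      congr 1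
      apply List.map_congr_left
      intro q _
      rw [pt_apply, coeff_zero_eq_eval_zero]
    have h1 : ((evL 0 (Lv C h.cur (⟨V, hV⟩ : HS 𝒜 f))).map
        fun q => q.2 * (((W : HS 𝒜 f) : R →ₗ[ℂ] k[X]) q.1).coeff 0).sum = 0 :=
      hperp _ (sec1_of_K1 W) (evL 0 (Lv C h.cur ⟨V, hV⟩)) h0
    rw [coeff_zero_eq_eval_zero, Pm_eval]
    refine Eq.trans ?_ h1
    unfold om
    congr 1
    apply List.map_congr_left
    intro q _
    rw [vl_apply, coeff_zero_eq_eval_zero]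
  obtain ⟨W, W', hWW⟩ := la (k := k) (H := HS 𝒜 f) (K1 𝒜 f) (J f) (cfm C h.cur 0)
    (finrank_HS C h)
    (fun W V => by
      rw [cfm_apply]
      have h1 := hK V (J f W)
      rwa [hJm, coeff_X_mul] at h1)
    (fun W V => by
      rw [cfm_apply, Pm_anti, hJm, coeff_neg, coeff_X_mul_zero, neg_zero])
    (fun W hW => hzero W fun V => by
      have h1 := hW V
      rw [cfm_apply, Pm_anti, coeff_neg, neg_eq_zero] at h1
      exact h1)
    (fun W W' hWW => by
      have h0 : W' = 0 → W = 0 := fun h0 => by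
        rw [h0, map_zero, add_zero] at hWW
        exact Subtype.ext hWW
      have hW : W = 0 := hzero W fun V => by
        have e : (W : HS 𝒜 f) = (-1 : k) • J f W' := by
          have h5 : (W : HS 𝒜 f) = ((W : HS 𝒜 f) + J f W') + (-1 : k) • J f W' := by module
          rw [hWW, zero_add] at h5
          exact h5
        rw [e, Pm_anti, Pm_smul, hJm, coeff_neg, coeff_smul, coeff_X_mul_zero, smul_zero,
          neg_zero]
      refine ⟨hW, ?_⟩
      rw [hW] at hWW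
      have h2 : J f W' = 0 := by
        rw [Submodule.coe_zero, zero_add] at hWW
        exact hWW
      apply Subtype.ext
      apply Subtype.ext
      ext1 r
      have h3 : X * ((W' : HS 𝒜 f) : R →ₗ[ℂ] k[X]) r = 0 := by
        rw [← J_apply, h2]
        rfl
      exact (mul_eq_zero.1 h3).resolve_left X_ne_zero)
    ⟨V, hV⟩ horth
  refine ⟨((W : HS 𝒜 f) : R →ₗ[ℂ] k[X]), sec1_of_K1 W, fun r => ?_⟩
  have h1 : V r = ((W : HS 𝒜 f) : R →ₗ[ℂ] k[X]) r + X * ((W' : HS 𝒜 f) : R →ₗ[ℂ] k[X]) r := by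
    rw [← J_apply]
    exact congrArg (fun U : HS 𝒜 f => (U : R →ₗ[ℂ] k[X]) r) hWW
  rw [hVδ, h1, eval_add, eval_mul, eval_X, zero_mul, add_zero, coeff_zero_eq_eval_zero]

/-- PA, the statement of the Spec. -/
theorem perp_span [IsDomain R] (C : Core 𝒜 br) {n : ℕ} (hdim : ringKrullDim R = (2 * n : ℕ))
    {f g : R →ₐ[ℂ] k[X]} (h : FL 𝒜 k f g) (hinj : Function.Injective fun r => (f r).coeff 0)
    {δ : R →ₗ[ℂ] k} (hδ : ∀ a b, δ (a * b) = (f a).coeff 0 * δ b + (f b).coeff 0 * δ a)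
    (hperp : ∀ s, Sec1 𝒜 f s →
      Perp br (fun r => (f r).coeff 0) (fun r => (s r).coeff 0) (fun r => δ r)) :
    ∃ s, Sec1 𝒜 f s ∧ ∀ r, δ r = (s r).coeff 0 := perp_span' C h hδ hperp

end Pool.Agent.Helper38.OLB
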